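import Pool.Agent.MED.Generic

/-!
# Lightface `Π⁰₁` maximal eventually different families which stay maximal on many sets

There is a lightface `Π⁰₁` eventually different family `E` of functions such that, for every infinite
set `A` which is not hyperimmune (for `A = ℕ` in particular), and for almost every set `A` in the
sense of measure and of category, every function agrees infinitely often on `A` with a member of `E`.
-/

open MeasureTheory Filter Pool.Agent.MED

namespace Pool.Agent.Results.MP_cf37a6_lc.HereditaryMED

/-- Any two distinct members of `E` agree at only finitely many places. -/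
def EventuallyDifferent (E : Set (ℕ → ℕ)) : Prop :=
  ∀ f ∈ E, ∀ g ∈ E, f ≠ g → {n | f n = g n}.Finite

/-- Every function agrees with a member of `E` at infinitely many places of the set `A`. -/
def MaximalOn (E : Set (ℕ → ℕ)) (A : Set ℕ) : Prop :=
  ∀ h : ℕ → ℕ, ∃ g ∈ E, {n ∈ A | h n = g n}.Infinite

/-- The function `q` takes every value infinitely often on the set `A`. -/
def EveryValueOn (q : ℕ → ℕ) (A : Set ℕ) : Prop :=
  ∀ m, {n ∈ A | q n = m}.Infinite

theorem fam_ed' (q : ℕ → ℕ) : EventuallyDifferent (fam q) :=
  fun _ hf _ hg hne => fam_ed q hf hg hne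

theorem fam_max' {q : ℕ → ℕ} {A : Set ℕ} (hA : EveryValueOn (fun n => (q n).unpair.1) A) :
    MaximalOn (fam q) A :=
  fun h => fam_max hA h

/-- There is a lightface `Π⁰₁` eventually different family `E` of functions which is maximal on
`ℕ`, on every infinite set which is not hyperimmune, and on almost every set of natural numbers in
the sense of measure and in the sense of category. -/
theorem result :
    ∃ E : Set (ℕ → ℕ), Pi01 E ∧ EventuallyDifferent E ∧
      MaximalOn E Set.univ ∧
      (∀ A : Set ℕ, NotHyperimmune A → MaximalOn E A) ∧
      (∀ᵐ a ∂coin, MaximalOn E {n | a n = true}) ∧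
      (∀ᶠ a in residual (ℕ → Bool), MaximalOn E {n | a n = true}) := by
  have hN : NotHyperimmune Set.univ :=
    ⟨id, Computable.id, fun x => ⟨x, Set.mem_univ x, le_rfl, le_rfl⟩⟩
  have hz : ∀ m, {n | (zz n).unpair.1 = m}.Infinite := fun m =>
    (zz_values hN m).mono fun n hn => hn.2
  refine ⟨fam zz, fam_pi01 zz_pi01, fam_ed' zz, fam_max' fun m => zz_values hN m,
    fun A hA => fam_max' fun m => zz_values hA m, ?_, ?_⟩
  · filter_upwards [ae_values hz] with a ha
    exact fam_max' ha
  · filter_upwards [residual_values hz] with a ha
    exact fam_max' ha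

end Pool.Agent.Results.MP_cf37a6_lc.HereditaryMED
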